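import Mathlib

/-!
# The recursion of the exchange ratios in local search
-/

set_option autoImplicit false

namespace Pool.Agent.Helper60.LS

/-- The ratios: `bet 0 = k`, `bet (j + 1) = ((k + 1) bet j - k) / (2 bet j - 1)`. -/
noncomputable def bet (k : ℝ) : ℕ → ℝ
  | 0 => k
  | j + 1 => ((k + 1) * bet k j - k) / (2 * bet k j - 1)

lemma bet_zero (k : ℝ) : bet k 0 = k := rfl

lemma bet_succ (k : ℝ) (j : ℕ) :
    bet k (j + 1) = ((k + 1) * bet k j - k) / (2 * bet k j - 1) := rfl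

lemma bet_diff {k : ℝ} {j : ℕ} (h : 0 < 2 * bet k j - 1) :
    bet k (j + 1) - k / 2 = (bet k j - k / 2) / (2 * bet k j - 1) := by
  rw [bet_succ, eq_div_iff h.ne', sub_mul, div_mul_cancel₀ _ h.ne']
  ring

lemma bet_ge {k : ℝ} (hk : 2 ≤ k) (j : ℕ) : k / 2 ≤ bet k j := by
  induction j with
  | zero => rw [bet_zero]; linarith
  | succ j ih =>
    have h : 0 < 2 * bet k j - 1 := by linarith
    have h2 := bet_diff h
    have h3 : 0 ≤ (bet k j - k / 2) / (2 * bet k j - 1) := div_nonneg (by linarith) h.le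
    linarith

lemma bet_pos {k : ℝ} (hk : 2 ≤ k) (j : ℕ) : 0 < 2 * bet k j - 1 := by
  have := bet_ge hk j
  linarith

/-- `(bet j - k / 2) (1 + 2 j (bet j - k / 2)) ≤ k / 2`-type bound: `bet j - k / 2 ≤ k / (2 + c j)`. -/
lemma bet_le {k : ℝ} (hk : 2 ≤ k) (j : ℕ) : (bet k j - k / 2) * (1 + k * j) ≤ k / 2 := by
  induction j with
  | zero => rw [bet_zero]; push_cast; linarith
  | succ j ih =>
    have h := bet_pos hk j
    have h0 := bet_ge hk j
    have h2 := bet_diff h
    rw [h2]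
    set x := bet k j - k / 2 with hx
    have hb : 2 * bet k j - 1 = 2 * x + (k - 1) := by rw [hx]; ring
    rw [hb] at h ⊢
    have hx0 : 0 ≤ x := by linarith
    have hj : (0 : ℝ) ≤ j := Nat.cast_nonneg j
    rw [div_mul_eq_mul_div, div_le_iff₀ h]
    push_cast
    nlinarith [mul_nonneg hx0 hj]

theorem bet_lim {k d : ℝ} (hk : 2 ≤ k) (hd : 0 < d) : ∃ j, bet k j ≤ k / 2 + d := by
  obtain ⟨j, hj⟩ := exists_nat_gt (1 / (2 * d))
  refine ⟨j, ?_⟩
  have h := bet_le hk j
  by_contra hcon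
  push Not at hcon
  have h1 : d * (1 + k * j) < (bet k j - k / 2) * (1 + k * j) := by
    apply mul_lt_mul_of_pos_right (by linarith)
    positivity
  have h2 : 1 < 2 * d * j := by
    rw [div_lt_iff₀ (by positivity)] at hj
    linarith
  nlinarith

end Pool.Agent.Helper60.LS
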