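import Mathlib

/-!
# Lifting an exchange from a contraction
-/

set_option autoImplicit false

namespace Pool.Agent.Helper60.LS

variable {E : Type} [DecidableEq E]

/-- An independent set can be extended inside another one. -/
lemma extend_in (N : Matroid E) {I J : Finset E} (hI : N.Indep (I : Set E))
    (hJ : N.Indep (J : Set E)) :
    ∃ A : Finset E, A ⊆ J \ I ∧ N.Indep ((I ∪ A : Finset E) : Set E) ∧
      J.card ≤ I.card + A.card := by
  classical
  -- a maximal extension
  obtain ⟨A, hA, hmax⟩ : ∃ A ∈ (J \ I).powerset.filter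
      (fun A => N.Indep ((I ∪ A : Finset E) : Set E)),
      ∀ A' ∈ (J \ I).powerset.filter (fun A => N.Indep ((I ∪ A : Finset E) : Set E)),
        A'.card ≤ A.card := by
    apply Finset.exists_max_image
    exact ⟨∅, by simp [hI]⟩
  rw [Finset.mem_filter, Finset.mem_powerset] at hA
  refine ⟨A, hA.1, hA.2, ?_⟩
  by_contra hlt
  push Not at hlt
  have hcard : (I ∪ A).card < J.card := by
    have := Finset.card_union_le I A
    omega
  obtain ⟨e, he, heI, hei⟩ : ∃ e ∈ J, e ∉ I ∪ A ∧ N.Indep (insert e ((I ∪ A : Finset E) : Set E)) := by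
    have h := hA.2.augment_finset hJ hcard
    obtain ⟨e, he, h1, h2⟩ := h
    exact ⟨e, he, h1, by simpa using h2⟩
  rw [Finset.mem_union, not_or] at heI
  have h3 := hmax (insert e A) (by
    rw [Finset.mem_filter, Finset.mem_powerset]
    refine ⟨?_, ?_⟩
    · intro x hx
      rw [Finset.mem_insert] at hx
      rcases hx with rfl | hx
      · exact Finset.mem_sdiff.2 ⟨he, heI.1⟩
      · exact hA.1 hx
    · have : ((I ∪ insert e A : Finset E) : Set E) = insert e ((I ∪ A : Finset E) : Set E) := by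
        push_cast
        rw [Set.union_insert]
      rw [this]
      exact hei)
  rw [Finset.card_insert_of_notMem heI.2] at h3
  omega

/-- **Lifting an exchange.** `X` replaces `W` in the contraction by `F`; all but few elements of
`Y` can be kept, and then `F \ Fl` and a part of `Fl` of the right size can be added. -/
theorem lift (N : Matroid E) {B W X Y Yl F Fl : Finset E}
    (h1 : N.Indep (((B \ Y) \ W ∪ X ∪ F : Finset E) : Set E))
    (h2 : N.Indep ((B ∪ (F \ Fl) : Finset E) : Set E))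
    (h3 : N.Indep (((B \ Yl) ∪ F : Finset E) : Set E))
    (hYl : Yl ⊆ Y) (hYB : Y ⊆ B) (hWB : W ⊆ B \ Y) (hXB : Disjoint X B) (hXF : Disjoint X F)
    (hFB : Disjoint F B) (hFl : Fl ⊆ F) (hc : Yl.card = Fl.card) :
    ∃ Z ⊆ Y, Z.card ≤ 2 * X.card ∧ ∀ Y', Z ⊆ Y' → Y' ⊆ Y → ∃ X' ⊆ Fl,
      X'.card = (Y' ∩ Yl).card ∧
        N.Indep (((B \ W) \ Y' ∪ X ∪ (F \ Fl) ∪ X' : Finset E) : Set E) := by
  classical
  have sub : ∀ {S T : Finset E}, S ⊆ T → N.Indep (T : Set E) → N.Indep (S : Set E) :=
    fun h hT => hT.subset (Finset.coe_subset.2 h)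
  have dXB : ∀ {x}, x ∈ X → x ∉ B := fun hx hb => Finset.disjoint_left.1 hXB hx hb
  have dXF : ∀ {x}, x ∈ X → x ∉ F := fun hx hb => Finset.disjoint_left.1 hXF hx hb
  have dFB : ∀ {x}, x ∈ F → x ∉ B := fun hx hb => Finset.disjoint_left.1 hFB hx hb
  have hWY : ∀ {x}, x ∈ W → x ∈ B ∧ x ∉ Y := fun hx => Finset.mem_sdiff.1 (hWB hx)
  -- cardinalities
  have cB : ((B \ Y) \ W).card + Y.card + W.card = B.card := by
    rw [Finset.card_sdiff_of_subset hWB, Finset.card_sdiff_of_subset hYB]
    have a1 := Finset.card_le_card hWB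
    have a2 := Finset.card_le_card hYB
    rw [Finset.card_sdiff_of_subset hYB] at a1
    omega
  have cBW : (B \ W).card + W.card = B.card := by
    have hW : W ⊆ B := fun x hx => (hWY hx).1
    rw [Finset.card_sdiff_of_subset hW]
    have := Finset.card_le_card hW
    omega
  have cBl : ((B \ Yl) \ W).card + Yl.card + W.card = B.card := by
    have hW : W ⊆ B \ Yl := fun x hx =>
      Finset.mem_sdiff.2 ⟨(hWY hx).1, fun h => (hWY hx).2 (hYl h)⟩
    have hl : Yl ⊆ B := hYl.trans hYB
    rw [Finset.card_sdiff_of_subset hW, Finset.card_sdiff_of_subset hl]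
    have a1 := Finset.card_le_card hW
    have a2 := Finset.card_le_card hl
    rw [Finset.card_sdiff_of_subset hl] at a1
    omega
  have cu3 : ∀ {S T U : Finset E}, (∀ x ∈ S, x ∉ T) → (∀ x ∈ S, x ∉ U) → (∀ x ∈ T, x ∉ U) →
      (S ∪ T ∪ U).card = S.card + T.card + U.card := by
    intro S T U a b c
    rw [Finset.card_union_of_disjoint, Finset.card_union_of_disjoint]
    · exact Finset.disjoint_left.2 fun x hx => a x hx
    · refine Finset.disjoint_left.2 fun x hx => ?_
      rw [Finset.mem_union] at hx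
      rcases hx with hx | hx
      · exact b x hx
      · exact c x hx
  -- first extension
  obtain ⟨A0, hA0, hi0, hc0⟩ := extend_in N (I := (B \ Y) \ W ∪ X ∪ (F \ Fl))
    (J := (B \ W) ∪ (F \ Fl)) (sub (by
      intro x hx
      simp only [Finset.mem_union, Finset.mem_sdiff] at hx ⊢
      tauto) h1) (sub (by
      intro x hx
      simp only [Finset.mem_union, Finset.mem_sdiff] at hx ⊢
      tauto) h2)
  have hA0Y : A0 ⊆ Y := by
    intro x hx
    have := hA0 hx
    simp only [Finset.mem_union, Finset.mem_sdiff] at this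
    tauto
  rw [cu3 (fun x hx hX => dXB hX (by simp only [Finset.mem_sdiff] at hx; exact hx.1.1))
    (fun x hx hF => dFB (Finset.mem_sdiff.1 hF).1 (by simp only [Finset.mem_sdiff] at hx; exact hx.1.1))
    (fun x hx hF => dXF hx (Finset.mem_sdiff.1 hF).1),
    Finset.card_union_of_disjoint (Finset.disjoint_left.2 fun x hx hF =>
      dFB (Finset.mem_sdiff.1 hF).1 (Finset.mem_sdiff.1 hx).1)] at hc0
  -- second extension
  obtain ⟨A1, hA1, hi1, hc1⟩ := extend_in N (I := (B \ Y) \ W ∪ X ∪ F)
    (J := ((B \ Yl) \ W) ∪ F) h1 (sub (by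
      intro x hx
      simp only [Finset.mem_union, Finset.mem_sdiff] at hx ⊢
      tauto) h3)
  have hA1Y : A1 ⊆ Y \ Yl := by
    intro x hx
    have := hA1 hx
    simp only [Finset.mem_union, Finset.mem_sdiff] at this ⊢
    tauto
  rw [cu3 (fun x hx hX => dXB hX (by simp only [Finset.mem_sdiff] at hx; exact hx.1.1))
    (fun x hx hF => dFB hF (by simp only [Finset.mem_sdiff] at hx; exact hx.1.1))
    (fun x hx hF => dXF hx hF),
    Finset.card_union_of_disjoint (Finset.disjoint_left.2 fun x hx hF =>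
      dFB hF (by simp only [Finset.mem_sdiff] at hx; exact hx.1.1))] at hc1
  have cR0 : (Y \ A0).card ≤ X.card := by
    rw [Finset.card_sdiff_of_subset hA0Y]
    omega
  have cR1 : ((Y \ Yl) \ A1).card ≤ X.card := by
    rw [Finset.card_sdiff_of_subset hA1Y, Finset.card_sdiff_of_subset hYl]
    omega
  refine ⟨(Y \ A0) ∪ ((Y \ Yl) \ A1), ?_, ?_, ?_⟩
  · intro x hx
    simp only [Finset.mem_union, Finset.mem_sdiff] at hx
    tauto
  · have := Finset.card_union_le (Y \ A0) ((Y \ Yl) \ A1)
    omega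
  intro Y' hZ hY'
  have hQ : N.Indep (((B \ W) \ Y' ∪ X ∪ (F \ Fl) : Finset E) : Set E) := by
    refine sub ?_ hi0
    intro x hx
    have hz : x ∈ Y → x ∉ A0 → x ∈ Y' := fun a b =>
      hZ (Finset.mem_union_left _ (Finset.mem_sdiff.2 ⟨a, b⟩))
    simp only [Finset.mem_union, Finset.mem_sdiff] at hx ⊢
    tauto
  have hZs : N.Indep ((((B \ Yl) \ W) \ Y' ∪ X ∪ F : Finset E) : Set E) := by
    refine sub ?_ hi1
    intro x hx
    have hz : x ∈ Y → x ∉ Yl → x ∉ A1 → x ∈ Y' := fun a b c =>
      hZ (Finset.mem_union_right _ (Finset.mem_sdiff.2 ⟨Finset.mem_sdiff.2 ⟨a, b⟩, c⟩))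
    simp only [Finset.mem_union, Finset.mem_sdiff] at hx ⊢
    tauto
  obtain ⟨A, hA, hi, hcA⟩ := extend_in N hQ hZs
  have hAF : A ⊆ Fl := by
    intro x hx
    have := hA hx
    simp only [Finset.mem_union, Finset.mem_sdiff] at this
    tauto
  rw [cu3 (fun x hx hX => dXB hX (by simp only [Finset.mem_sdiff] at hx; exact hx.1.1))
    (fun x hx hF => dFB (Finset.mem_sdiff.1 hF).1 (by simp only [Finset.mem_sdiff] at hx; exact hx.1.1))
    (fun x hx hF => dXF hx (Finset.mem_sdiff.1 hF).1),
    cu3 (fun x hx hX => dXB hX (by simp only [Finset.mem_sdiff] at hx; exact hx.1.1.1))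
    (fun x hx hF => dFB hF (by simp only [Finset.mem_sdiff] at hx; exact hx.1.1.1))
    (fun x hx hF => dXF hx hF)] at hcA
  have cF : (F \ Fl).card + Fl.card = F.card := by
    rw [Finset.card_sdiff_of_subset hFl]
    have := Finset.card_le_card hFl
    omega
  have cY : ((B \ W) \ Y').card = (((B \ Yl) \ W) \ Y').card + (Yl \ Y').card := by
    rw [← Finset.card_union_of_disjoint]
    · congr 1
      ext x
      have a1 : x ∈ Yl → x ∈ B ∧ x ∉ W := fun h => ⟨hYB (hYl h), fun hw => (hWY hw).2 (hYl h)⟩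
      simp only [Finset.mem_union, Finset.mem_sdiff]
      tauto
    · refine Finset.disjoint_left.2 fun x hx hx' => ?_
      simp only [Finset.mem_sdiff] at hx hx'
      tauto
  have cYl : (Yl \ Y').card + (Y' ∩ Yl).card = Yl.card := by
    rw [Finset.inter_comm]
    exact Finset.card_sdiff_add_card_inter Yl Y'
  obtain ⟨X', hX'1, hX'2⟩ := Finset.exists_subset_card_eq (s := A) (n := (Y' ∩ Yl).card)
    (by omega)
  refine ⟨X', hX'1.trans hAF, hX'2, sub ?_ hi⟩
  exact Finset.union_subset_union (Finset.Subset.refl _) hX'1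

end Pool.Agent.Helper60.LS
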