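import Mathlib
import Pool.Agent.Helper60.LS.Lift
import Pool.Agent.Helper60.LS.Num

/-!
# The recursion step of local search in the intersection of `k` matroids
-/

set_option autoImplicit false

open scoped Matroid

namespace Pool.Agent.Helper60.LS

/-- Local search with exchanges of at most `s` elements: a common independent set `B` which is
smaller than `S` by more than the factor `b` can be enlarged by adding at most `s` elements of
`S \ B` and removing some elements. -/
def LS (k : ℕ) (b : ℝ) (s : ℕ) : Prop :=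
  ∀ (E : Type) [Fintype E] [DecidableEq E] (M : Fin k → Matroid E) (B S : Finset E),
    (∀ i, (M i).Indep (B : Set E)) → (∀ i, (M i).Indep (S : Set E)) →
    b * (B.card : ℝ) < S.card → ∃ X : Finset E, X ⊆ S \ B ∧ X.card ≤ s ∧
      ∃ B' : Finset E, B' ⊆ B ∪ X ∧ (∀ i, (M i).Indep (B' : Set E)) ∧ B.card < B'.card

/-- The exchange in the contraction, lifted. -/
theorem asm {k : ℕ} {E : Type} [Fintype E] [DecidableEq E] (M : Fin k → Matroid E)
    {B S : Finset E} (hS : ∀ i, (M i).Indep (S : Set E)) (Fl Yl : Fin k → Finset E)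
    (hF : ∀ l, Fl l ⊆ S \ B) (hFd : ∀ l m, l ≠ m → Disjoint (Fl l) (Fl m))
    (hY : ∀ l, Yl l ⊆ B \ S) (hYd : ∀ l m, l ≠ m → Disjoint (Yl l) (Yl m))
    (hc : ∀ l, (Yl l).card = (Fl l).card)
    (h2 : ∀ l, (M l).Indep ((B ∪ (Finset.univ.biUnion Fl \ Fl l) : Finset E) : Set E))
    (h3 : ∀ l, (M l).Indep (((B \ Yl l) ∪ Finset.univ.biUnion Fl : Finset E) : Set E))
    {b : ℝ} {s : ℕ} (hls : LS k b s)
    (hlt : b * ((B.card : ℝ) - (Finset.univ.biUnion Fl).card) <
      (S.card : ℝ) - (Finset.univ.biUnion Fl).card) :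
    ∃ X : Finset E, X ⊆ S \ B ∧ X.card ≤ (2 * k + 1) * s ∧
      ∃ B' : Finset E, B' ⊆ B ∪ X ∧ (∀ i, (M i).Indep (B' : Set E)) ∧ B.card < B'.card := by
  classical
  set F : Finset E := Finset.univ.biUnion Fl with hFdef
  set Y : Finset E := Finset.univ.biUnion Yl with hYdef
  have hFlF : ∀ l, Fl l ⊆ F := fun l => Finset.subset_biUnion_of_mem Fl (Finset.mem_univ l)
  have hYlY : ∀ l, Yl l ⊆ Y := fun l => Finset.subset_biUnion_of_mem Yl (Finset.mem_univ l)
  have hFS : F ⊆ S \ B := Finset.biUnion_subset.2 fun l _ => hF l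
  have hYB : Y ⊆ B \ S := Finset.biUnion_subset.2 fun l _ => hY l
  have hYB' : Y ⊆ B := fun x hx => (Finset.mem_sdiff.1 (hYB hx)).1
  have hFS' : F ⊆ S := fun x hx => (Finset.mem_sdiff.1 (hFS hx)).1
  have hFB : Disjoint F B := Finset.disjoint_left.2 fun x hx => (Finset.mem_sdiff.1 (hFS hx)).2
  have hn : Y.card = F.card := by
    rw [hYdef, hFdef, Finset.card_biUnion fun l _ m _ h => hYd l m h,
      Finset.card_biUnion fun l _ m _ h => hFd l m h]
    exact Finset.sum_congr rfl fun l _ => hc l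
  have hFi : ∀ l, (M l).Indep (F : Set E) := fun l =>
    (hS l).subset (Finset.coe_subset.2 hFS')
  -- the contraction
  let N : Fin k → Matroid E := fun l => (M l) ／ (F : Set E)
  have hN : ∀ l (I : Finset E), (N l).Indep (I : Set E) ↔
      Disjoint I F ∧ (M l).Indep ((I ∪ F : Finset E) : Set E) := by
    intro l I
    rw [show N l = (M l) ／ (F : Set E) from rfl, (hFi l).contract_indep_iff, Finset.disjoint_coe]
    push_cast
    rfl
  have hB1 : ∀ l, (N l).Indep ((B \ Y : Finset E) : Set E) := by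
    intro l
    rw [hN]
    refine ⟨Finset.disjoint_left.2 fun x hx hxF =>
      Finset.disjoint_left.1 hFB hxF (Finset.mem_sdiff.1 hx).1, (h3 l).subset ?_⟩
    rw [Finset.coe_subset]
    exact Finset.union_subset_union (Finset.sdiff_subset_sdiff (Finset.Subset.refl _) (hYlY l))
      (Finset.Subset.refl _)
  have hS1 : ∀ l, (N l).Indep ((S \ F : Finset E) : Set E) := by
    intro l
    rw [hN]
    refine ⟨Finset.sdiff_disjoint, ?_⟩
    rw [Finset.sdiff_union_of_subset hFS']
    exact hS l
  have cB1 : ((B \ Y).card : ℝ) = (B.card : ℝ) - F.card := by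
    rw [Finset.card_sdiff_of_subset hYB', Nat.cast_sub (Finset.card_le_card hYB'), hn]
  have cS1 : ((S \ F).card : ℝ) = (S.card : ℝ) - F.card := by
    rw [Finset.card_sdiff_of_subset hFS', Nat.cast_sub (Finset.card_le_card hFS')]
  obtain ⟨X1, hX1, hX1c, B2, hB2, hB2i, hB2c⟩ := hls E N (B \ Y) (S \ F) hB1 hS1
    (by rw [cB1, cS1]; exact hlt)
  -- the exchange
  set W : Finset E := (B \ Y) \ B2 with hW
  set X : Finset E := B2 \ (B \ Y) with hX
  have hXX1 : X ⊆ X1 := by
    intro x hx
    have h1 := Finset.mem_sdiff.1 hx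
    have h5 := hB2 h1.1
    rw [Finset.mem_union] at h5
    exact h5.resolve_left h1.2
  have hXS : ∀ x ∈ X, x ∈ S ∧ x ∉ F ∧ x ∉ B := by
    intro x hx
    have h1 := hX1 (hXX1 hx)
    simp only [Finset.mem_sdiff] at h1
    refine ⟨h1.1.1, h1.1.2, fun hxB => ?_⟩
    have h5 : x ∈ Y := by
      by_contra h6
      exact h1.2 ⟨hxB, h6⟩
    exact (Finset.mem_sdiff.1 (hYB h5)).2 h1.1.1
  have hXc : X.card ≤ s := (Finset.card_le_card hXX1).trans hX1c
  have hWX : W.card < X.card := by
    have a1 := Finset.card_sdiff_add_card_inter (B \ Y) B2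
    have a2 := Finset.card_sdiff_add_card_inter B2 (B \ Y)
    rw [Finset.inter_comm] at a2
    rw [← hW] at a1
    rw [← hX] at a2
    omega
  have hB2eq : (B \ Y) \ W ∪ X = B2 := by
    ext x
    have := @hB2 x
    simp only [hW, hX, Finset.mem_union, Finset.mem_sdiff]
    tauto
  have hXB : Disjoint X B := Finset.disjoint_left.2 fun x hx => (hXS x hx).2.2
  have hXF : Disjoint X F := Finset.disjoint_left.2 fun x hx => (hXS x hx).2.1
  have hWB : W ⊆ B \ Y := Finset.sdiff_subset
  have h1 : ∀ l, (M l).Indep (((B \ Y) \ W ∪ X ∪ F : Finset E) : Set E) := by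
    intro l
    rw [hB2eq]
    exact ((hN l B2).1 (hB2i l)).2
  have hlift := fun l => lift (M l) (h1 l) (h2 l) (h3 l) (hYlY l) hYB' hWB hXB hXF hFB (hFlF l)
    (hc l)
  choose Z hZY hZc hZ using hlift
  set Y' : Finset E := Finset.univ.biUnion Z with hY'
  have hY'Y : Y' ⊆ Y := Finset.biUnion_subset.2 fun l _ => hZY l
  have hZY' : ∀ l, Z l ⊆ Y' := fun l => Finset.subset_biUnion_of_mem Z (Finset.mem_univ l)
  have hlift2 := fun l => hZ l Y' (hZY' l) hY'Y
  choose A hAF hAc hAi using hlift2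
  set XX : Finset E := Finset.univ.biUnion A with hXX
  have hXXF : XX ⊆ F := Finset.biUnion_subset.2 fun l _ => (hAF l).trans (hFlF l)
  have cXX : XX.card = Y'.card := by
    rw [hXX, Finset.card_biUnion fun l _ m _ h => (hFd l m h).mono (hAF l) (hAF m)]
    rw [Finset.sum_congr rfl fun l _ => hAc l]
    rw [← Finset.card_biUnion fun l _ m _ h =>
      (hYd l m h).mono Finset.inter_subset_right Finset.inter_subset_right]
    congr 1
    ext x
    simp only [Finset.mem_biUnion, Finset.mem_univ, true_and, Finset.mem_inter]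
    constructor
    · rintro ⟨l, h, -⟩
      exact h
    · intro h
      obtain ⟨l, -, hl⟩ := Finset.mem_biUnion.1 (hY'Y h)
      exact ⟨l, h, hl⟩
  have cY' : Y'.card ≤ k * (2 * X.card) := by
    refine Finset.card_biUnion_le.trans ?_
    refine (Finset.sum_le_sum fun l _ => hZc l).trans ?_
    simp
  refine ⟨X ∪ XX, ?_, ?_, (B \ W) \ Y' ∪ X ∪ XX, ?_, ?_, ?_⟩
  · intro x hx
    rcases Finset.mem_union.1 hx with hx | hx
    · exact Finset.mem_sdiff.2 ⟨(hXS x hx).1, (hXS x hx).2.2⟩
    · exact hFS (hXXF hx)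
  · have := Finset.card_union_le X XX
    have h5 : (2 * k + 1) * X.card ≤ (2 * k + 1) * s := Nat.mul_le_mul_left _ hXc
    have h6 : (2 * k + 1) * X.card = k * (2 * X.card) + X.card := by ring
    omega
  · intro x hx
    simp only [Finset.mem_union, Finset.mem_sdiff] at hx ⊢
    tauto
  · intro l
    refine (hAi l).subset ?_
    rw [Finset.coe_subset]
    intro x hx
    have h5 : x ∈ XX → x ∈ F \ Fl l ∨ x ∈ A l := by
      intro hx
      obtain ⟨m, -, hm⟩ := Finset.mem_biUnion.1 hx
      by_cases hml : m = l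
      · subst hml; exact Or.inr hm
      · refine Or.inl (Finset.mem_sdiff.2 ⟨hXXF hx, fun h6 => ?_⟩)
        exact Finset.disjoint_left.1 (hFd m l hml) (hAF m hm) h6
    rw [Finset.mem_union] at hx
    rcases hx with hx | hx
    · exact Finset.mem_union_left _ (Finset.mem_union_left _ hx)
    · rcases h5 hx with h6 | h6
      · exact Finset.mem_union_left _ (Finset.mem_union_right _ h6)
      · exact Finset.mem_union_right _ h6
  · have hWB' : W ⊆ B := fun x hx => (Finset.mem_sdiff.1 (hWB hx)).1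
    have hY'W : Y' ⊆ B \ W := fun x hx => Finset.mem_sdiff.2
      ⟨hYB' (hY'Y hx), fun h => (Finset.mem_sdiff.1 (hWB h)).2 (hY'Y hx)⟩
    rw [Finset.card_union_of_disjoint, Finset.card_union_of_disjoint,
      Finset.card_sdiff_of_subset hY'W, Finset.card_sdiff_of_subset hWB', cXX]
    · have a1 := Finset.card_le_card hWB'
      have a2 := Finset.card_le_card hY'W
      rw [Finset.card_sdiff_of_subset hWB'] at a2
      omega
    · refine Finset.disjoint_left.2 fun x hx hx' => (hXS x hx').2.2 ?_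
      simp only [Finset.mem_sdiff] at hx
      exact hx.1.1
    · refine Finset.disjoint_left.2 fun x hx hx' => ?_
      rw [Finset.mem_union] at hx
      rcases hx with hx | hx
      · simp only [Finset.mem_sdiff] at hx
        exact Finset.disjoint_left.1 hFB (hXXF hx') hx.1.1
      · exact (hXS x hx).2.1 (hXXF hx')

/-- the arithmetic of one step -/
lemma arith {k b B S n : ℝ} (hk : 2 ≤ k) (hb : k / 2 ≤ b) (h1 : S - n ≤ b * (B - n))
    (h2 : 2 * S ≤ k * B + n) : S ≤ ((k + 1) * b - k) / (2 * b - 1) * B := by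
  have hb1 : 1 ≤ b := by linarith
  have h3 : 0 < 2 * b - 1 := by linarith
  rw [div_mul_eq_mul_div, le_div_iff₀ h3]
  nlinarith [mul_nonneg (sub_nonneg.2 hb1) (sub_nonneg.2 h2)]

end Pool.Agent.Helper60.LS
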