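import Mathlib
import Pool.Agent.Helper60.LS.Step
import Pool.Agent.Helper98.LS.Step1

/-!
# Local search in the intersection of `k` matroids: the ratio `k / 2 + d`
-/

set_option autoImplicit false

namespace Pool.Agent.Helper60.LS

/-- The recursion step. -/
theorem step {k : ℕ} (hk : 2 ≤ k) {b : ℝ} (hb : (k : ℝ) / 2 ≤ b) {s : ℕ} (hs : 1 ≤ s)
    (h : LS k b s) :
    LS k ((((k : ℝ) + 1) * b - k) / (2 * b - 1)) ((2 * k + 1) * s) := by
  intro E _ _ M B S hB hS hlt
  have hkR : (2 : ℝ) ≤ k := by exact_mod_cast hk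
  have h2s : 2 ≤ (2 * k + 1) * s := by nlinarith
  rcases Pool.Agent.Helper98.LS.step1 hk M hB hS with
    ⟨X, h1, h2, h3⟩ | ⟨F, Y, hFd, hYd, hY, hF, hc, hi1, hi2, hcard⟩
  · exact ⟨X, h1, h2.trans h2s, h3⟩
  · refine asm M hS F Y hF hFd hY hYd hc hi1 hi2 h ?_
    by_contra hcon
    push Not at hcon
    have h4 : (2 : ℝ) * S.card ≤ k * B.card + (Finset.univ.biUnion F).card := by
      exact_mod_cast hcard
    have h5 := arith hkR hb hcon h4
    linarith

/-- The start of the recursion: one added element. -/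
theorem base {k : ℕ} (hk : 1 ≤ k) : LS k k 1 := by
  intro E _ _ M B S hB hS hlt
  by_contra hno
  push Not at hno
  classical
  -- for every `l` extend `B` inside `S`
  have hext := fun l => extend_in (M l) (hB l) (hS l)
  choose A hA hAi hAc using hext
  -- every element of `S \ B` is missing from some `A l`
  have hmiss : ∀ e ∈ S \ B, ∃ l, e ∉ A l := by
    intro e he
    by_contra hcon
    push Not at hcon
    have h1 := hno {e} (Finset.singleton_subset_iff.2 he) (by simp) (B ∪ {e})
      (Finset.Subset.refl _) (fun i => (hAi i).subset (by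
        rw [Finset.coe_subset]
        exact Finset.union_subset_union (Finset.Subset.refl _)
          (Finset.singleton_subset_iff.2 (hcon i))))
    rw [Finset.card_union_of_disjoint (Finset.disjoint_singleton_right.2
      (Finset.mem_sdiff.1 he).2)] at h1
    simp at h1
  have h1 : S \ B ⊆ Finset.univ.biUnion fun l => (S \ B) \ A l := by
    intro e he
    obtain ⟨l, hl⟩ := hmiss e he
    exact Finset.mem_biUnion.2 ⟨l, Finset.mem_univ _, Finset.mem_sdiff.2 ⟨he, hl⟩⟩
  have h2 : ∀ l, ((S \ B) \ A l).card ≤ (B \ S).card := by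
    intro l
    rw [Finset.card_sdiff_of_subset (hA l)]
    have h3 := hAc l
    have h4 := Finset.card_sdiff_add_card_inter S B
    have h5 := Finset.card_sdiff_add_card_inter B S
    rw [Finset.inter_comm] at h5
    omega
  have h3 : (S \ B).card ≤ k * (B \ S).card := by
    refine (Finset.card_le_card h1).trans (Finset.card_biUnion_le.trans ?_)
    refine (Finset.sum_le_sum fun l _ => h2 l).trans ?_
    simp
  have h4 := Finset.card_sdiff_add_card_inter S B
  have h5 := Finset.card_sdiff_add_card_inter B S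
  rw [Finset.inter_comm] at h5
  have h6 : S.card ≤ k * B.card := by
    have h7 : (S ∩ B).card ≤ k * (S ∩ B).card := Nat.le_mul_of_pos_left _ hk
    nlinarith
  have h7 : (S.card : ℝ) ≤ k * B.card := by exact_mod_cast h6
  linarith

/-- Local search with ratio `bet k j`. -/
theorem ls_bet {k : ℕ} (hk : 2 ≤ k) (j : ℕ) : ∃ s : ℕ, 1 ≤ s ∧ LS k (bet k j) s := by
  have hkR : (2 : ℝ) ≤ k := by exact_mod_cast hk
  induction j with
  | zero => exact ⟨1, le_rfl, base (by omega)⟩
  | succ j ih =>
    obtain ⟨s, hs, h⟩ := ih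
    refine ⟨(2 * k + 1) * s, ?_, ?_⟩
    · nlinarith
    · rw [bet_succ]
      exact step hk (bet_ge hkR j) hs h

/-- **Local search in the intersection of `k` matroids.** If the common independent set `B` is
smaller than the common independent set `S` by more than the factor `k / 2 + d`, then it can be
enlarged by adding at most `s` elements of `S \ B` and removing some elements; `s` depends on `k` and
`d` only. -/
theorem local_search {k : ℕ} (hk : 2 ≤ k) {d : ℝ} (hd : 0 < d) :
    ∃ s : ℕ, 1 ≤ s ∧ ∀ {E : Type} [Fintype E] [DecidableEq E] (M : Fin k → Matroid E)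
      {B S : Finset E} (_ : ∀ i, (M i).Indep (B : Set E)) (_ : ∀ i, (M i).Indep (S : Set E))
      (_ : ((k : ℝ) / 2 + d) * B.card < S.card),
      ∃ X : Finset E, X ⊆ S \ B ∧ X.card ≤ s ∧ ∃ B' : Finset E, B' ⊆ B ∪ X ∧
        (∀ i, (M i).Indep (B' : Set E)) ∧ B.card < B'.card := by
  have hkR : (2 : ℝ) ≤ k := by exact_mod_cast hk
  obtain ⟨j, hj⟩ := bet_lim hkR hd
  obtain ⟨s, hs, h⟩ := ls_bet hk j
  refine ⟨s, hs, fun {E} _ _ M {B S} hB hS hlt => h E M B S hB hS (lt_of_le_of_lt ?_ hlt)⟩
  exact mul_le_mul_of_nonneg_right hj (Nat.cast_nonneg _)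

end Pool.Agent.Helper60.LS
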